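import Mathlib

/-!
# Self-adjusting binary search trees and the WPL tree algorithm: definitions
-/

set_option autoImplicit false

namespace Pool.Agent.Q218.WPL

/-- Binary trees whose nodes carry a key. -/
inductive Tree : Type
  | nil : Tree
  | node (l : Tree) (k : ℕ) (r : Tree) : Tree

namespace Tree

/-- The keys of a tree in symmetric order. -/
def inorder : Tree → List ℕ
  | nil => []
  | node l k r => l.inorder ++ k :: r.inorder

/-- `T` is a binary search tree with the keys `1, …, n`: the symmetric order of its keys is
`1, 2, …, n`. -/
def IsSearchTree (n : ℕ) (T : Tree) : Prop :=
  T.inorder = List.range' 1 n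

/-- The number of nodes on the path from the root to the node with key `x` (found by searching). -/
def pathLen (x : ℕ) : Tree → ℕ
  | nil => 0
  | node l k r => if x < k then 1 + pathLen x l else if k < x then 1 + pathLen x r else 1

/-- The key of the root. -/
def rootKey : Tree → Option ℕ
  | nil => none
  | node _ k _ => some k

/-- The rotation of the edge between the root and its left child. -/
def rotateRight : Tree → Tree
  | node (node a x b) y c => node a x (node b y c)
  | t => t

/-- The rotation of the edge between the root and its right child. -/
def rotateLeft : Tree → Tree
  | node a x (node b y c) => node (node a x b) y c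
  | t => t

/-- The tree obtained by rotating the edge between the node with key `x` and its parent; the tree
is not changed if `x` is the key of the root. -/
def rotUp (x : ℕ) : Tree → Tree
  | nil => nil
  | node l k r =>
      if x < k then
        if l.rootKey = some x then rotateRight (node l k r) else node (rotUp x l) k r
      else if k < x then
        if r.rootKey = some x then rotateLeft (node l k r) else node l k (rotUp x r)
      else node l k r

/-- One rotation somewhere in the tree. -/
inductive Rotation : Tree → Tree → Prop
  | right (a b c : Tree) (x y : ℕ) : Rotation (node (node a x b) y c) (node a x (node b y c))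
  | left (a b c : Tree) (x y : ℕ) : Rotation (node a x (node b y c)) (node (node a x b) y c)
  | inLeft (l l' r : Tree) (k : ℕ) (h : Rotation l l') : Rotation (node l k r) (node l' k r)
  | inRight (l r r' : Tree) (k : ℕ) (h : Rotation r r') : Rotation (node l k r) (node l k r')

/-- `Rotations k T T'`: the tree `T'` arises from `T` by `k` rotations. -/
inductive Rotations : ℕ → Tree → Tree → Prop
  | refl (T : Tree) : Rotations 0 T T
  | step {k : ℕ} {T T' T'' : Tree} (h : Rotation T T') (hs : Rotations k T' T'') :
      Rotations (k + 1) T T''

/-- The weighted path length of a tree with the keys `1, …, n`: the sum over all keys `v` of `w v`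
times the number of nodes on the path from the root to `v`. -/
def wpl (n : ℕ) (w : ℕ → ℕ) (T : Tree) : ℕ :=
  ∑ v ∈ Finset.Icc 1 n, w v * T.pathLen v

/-- Rotate the node with key `x` over its current parent as long as this strictly decreases the
weighted path length. The result is the final tree and the number of rotations. -/
def climb (n : ℕ) (w : ℕ → ℕ) (x : ℕ) (T : Tree) : Tree × ℕ :=
  if wpl n w (rotUp x T) < wpl n w T then
    ((climb n w x (rotUp x T)).1, (climb n w x (rotUp x T)).2 + 1)
  else (T, 0)
termination_by wpl n w T

/-- The cost of the WPL tree algorithm on the requests `σ` from the tree `T`, when the counters of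
the keys are `w`. For a request `x` the search costs `pathLen x T`; then the counter of `x` is
increased and the rotations are performed, at cost one each. -/
def wplCostFrom (n : ℕ) : (ℕ → ℕ) → Tree → List ℕ → ℕ
  | _, _, [] => 0
  | w, T, x :: σ =>
      pathLen x T + (climb n (Function.update w x (w x + 1)) x T).2 +
        wplCostFrom n (Function.update w x (w x + 1))
          (climb n (Function.update w x (w x + 1)) x T).1 σ

/-- The cost of the WPL tree algorithm on the requests `σ` from the initial tree `T₀`, all counters
being zero at the beginning. -/
def wplCost (n : ℕ) (T₀ : Tree) (σ : List ℕ) : ℕ :=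
  wplCostFrom n (fun _ => 0) T₀ σ

/-- `Serves T σ c`: the requests `σ` can be served from the tree `T` at cost `c`. A request `x` costs
the number of nodes on the path from the root to `x`; after every request any number `k` of
rotations can be performed, at cost one each. -/
inductive Serves : Tree → List ℕ → ℕ → Prop
  | nil (T : Tree) : Serves T [] 0
  | cons {T T' : Tree} {x : ℕ} {σ : List ℕ} {k c : ℕ} (h : Rotations k T T')
      (hs : Serves T' σ c) : Serves T (x :: σ) (pathLen x T + k + c)

/-- The optimal offline cost of serving `σ` from the initial tree `T₀`. -/
noncomputable def opt (T₀ : Tree) (σ : List ℕ) : ℕ :=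
  sInf {c | Serves T₀ σ c}

/-- The cost of the requests `σ` in the fixed tree `S`. -/
def staticCost (S : Tree) (σ : List ℕ) : ℕ :=
  (σ.map fun x => pathLen x S).sum

/-- The cost of the requests `σ` in the best fixed binary search tree with the keys `1, …, n`. -/
noncomputable def staticOpt (n : ℕ) (σ : List ℕ) : ℕ :=
  sInf {c | ∃ S : Tree, S.IsSearchTree n ∧ staticCost S σ = c}

end Tree

end Pool.Agent.Q218.WPL
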