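import Pool.Agent.Q218.WPL.Upper

set_option autoImplicit false

namespace Pool.Agent.Q218.WPL.Tree

open Filter Topology

/-- If the offline cost is at most `(log₂ n + 1)` per request, up to a constant, the WPL tree
algorithm loses a factor `n / (4 (log₂ n + 1))` on the zig-zag path. -/
lemma ratio_of_le {n : ℕ} (hn : 2 ≤ n) (f : List ℕ → ℕ) (K₀ : ℕ)
    (hf : ∀ σ : List ℕ, (∀ x ∈ σ, 1 ≤ x ∧ x ≤ n) → f σ ≤ σ.length * (Nat.log 2 n + 1) + K₀)
    (K : ℝ) : ∃ σ : List ℕ, (∀ x ∈ σ, 1 ≤ x ∧ x ≤ n) ∧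
      (n : ℝ) / (4 * (Real.logb 2 n + 1)) * f σ + K ≤ wplCost n (zz true 1 n) σ := by
  have hn0 : (2 : ℝ) ≤ n := by exact_mod_cast hn
  have hlog : (Nat.log 2 n : ℝ) ≤ Real.logb 2 n := by
    rw [Real.le_logb_iff_rpow_le (by norm_num) (by linarith), Real.rpow_natCast]
    exact_mod_cast Nat.pow_log_le_self 2 (by omega)
  have hL : (1 : ℝ) ≤ Real.logb 2 n + 1 := by
    have : (0 : ℝ) ≤ Nat.log 2 n := Nat.cast_nonneg _
    linarith
  obtain ⟨m, hm⟩ := exists_nat_ge ((n : ℝ) * K₀ + |K|)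
  refine ⟨reqs n (4 * m), fun x hx => mem_reqs hx, ?_⟩
  have h1 := hf (reqs n (4 * m)) (fun x hx => mem_reqs hx)
  rw [length_reqs] at h1
  have h2 := wplCost_reqs n (4 * m)
  have h1' : (f (reqs n (4 * m)) : ℝ) ≤ 4 * m * n * (Real.logb 2 n + 1) + K₀ := by
    have : (f (reqs n (4 * m)) : ℝ) ≤ 4 * m * n * (Nat.log 2 n + 1) + K₀ := by
      exact_mod_cast h1
    have h3 : (4 : ℝ) * m * n * (Nat.log 2 n + 1) ≤ 4 * m * n * (Real.logb 2 n + 1) := by
      apply mul_le_mul_of_nonneg_left _ (by positivity)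
      linarith
    linarith
  have h2' : (wplCost n (zz true 1 n) (reqs n (4 * m)) : ℝ) = 2 * m * (n * (n + 1)) := by
    have : (2 : ℝ) * wplCost n (zz true 1 n) (reqs n (4 * m)) = 4 * m * (n * (n + 1)) := by
      exact_mod_cast h2
    linarith
  rw [h2']
  have h4 : (n : ℝ) / (4 * (Real.logb 2 n + 1)) * f (reqs n (4 * m)) ≤ m * n * n + n * K₀ := by
    calc (n : ℝ) / (4 * (Real.logb 2 n + 1)) * f (reqs n (4 * m))
        ≤ (n : ℝ) / (4 * (Real.logb 2 n + 1)) * (4 * m * n * (Real.logb 2 n + 1) + K₀) := by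
          apply mul_le_mul_of_nonneg_left h1'
          positivity
      _ = m * n * n + n * K₀ * (1 / (4 * (Real.logb 2 n + 1))) := by
          field_simp
      _ ≤ m * n * n + n * K₀ * 1 := by
          have : 1 / (4 * (Real.logb 2 n + 1)) ≤ 1 := by
            rw [div_le_one (by linarith)]
            linarith
          have h5 : (0 : ℝ) ≤ n * K₀ := by positivity
          have := mul_le_mul_of_nonneg_left this h5
          linarith
      _ = _ := by ring
  have h6 : (m : ℝ) ≤ m * n * n := by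
    have h7 : (0 : ℝ) ≤ m := Nat.cast_nonneg _
    nlinarith [mul_nonneg h7 (by linarith : (0 : ℝ) ≤ n)]
  have h8 := le_abs_self K
  nlinarith [mul_nonneg (Nat.cast_nonneg (α := ℝ) m) (by linarith : (0 : ℝ) ≤ n)]

/-- The quantitative form for the dynamic offline optimum. -/
theorem dynamic_ratio {n : ℕ} (hn : 2 ≤ n) : ∃ T₀ : Tree, T₀.IsSearchTree n ∧ ∀ K : ℝ,
    ∃ σ : List ℕ, (∀ x ∈ σ, 1 ≤ x ∧ x ≤ n) ∧
      (n : ℝ) / (4 * (Real.logb 2 n + 1)) * opt T₀ σ + K ≤ wplCost n T₀ σ := by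
  obtain ⟨K₀, hK₀⟩ := opt_le (isSearchTree_zz n)
  exact ⟨zz true 1 n, isSearchTree_zz n, fun K => ratio_of_le hn (opt (zz true 1 n)) K₀ hK₀ K⟩

/-- The quantitative form for the static optimum. -/
theorem static_ratio {n : ℕ} (hn : 2 ≤ n) : ∃ T₀ : Tree, T₀.IsSearchTree n ∧ ∀ K : ℝ,
    ∃ σ : List ℕ, (∀ x ∈ σ, 1 ≤ x ∧ x ≤ n) ∧
      (n : ℝ) / (4 * (Real.logb 2 n + 1)) * staticOpt n σ + K ≤ wplCost n T₀ σ :=
  ⟨zz true 1 n, isSearchTree_zz n, fun K => ratio_of_le hn (staticOpt n) 0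
    (fun σ _ => staticOpt_le n σ) K⟩

lemma tendsto_ratio : Tendsto (fun n : ℕ => (n : ℝ) / (4 * (Real.logb 2 n + 1)) / (Real.log n + 1))
    atTop atTop := by
  have h1 : Tendsto (fun x : ℝ => (Real.log x + 1) ^ 2 / x) atTop (𝓝 0) := by
    have h2 : Tendsto (fun x : ℝ => Real.log x ^ 2 / x) atTop (𝓝 0) := by
      have := Real.isLittleO_pow_log_id_atTop (n := 2)
      exact this.tendsto_div_nhds_zero
    have h3 : Tendsto (fun x : ℝ => Real.log x / x) atTop (𝓝 0) :=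
      Real.isLittleO_log_id_atTop.tendsto_div_nhds_zero
    have h4 : Tendsto (fun x : ℝ => 1 / x) atTop (𝓝 0) := by
      simpa using tendsto_inv_atTop_zero (𝕜 := ℝ)
    have := (h2.add (h3.const_mul 2)).add h4
    simp only [mul_zero, add_zero] at this
    refine this.congr ?_
    intro x
    ring
  have h5 : Tendsto (fun x : ℝ => x / (Real.log x + 1) ^ 2) atTop atTop := by
    have : Tendsto (fun x : ℝ => ((Real.log x + 1) ^ 2 / x)⁻¹) atTop atTop := by
      apply Tendsto.inv_tendsto_nhdsGT_zero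
      rw [tendsto_nhdsWithin_iff]
      refine ⟨h1, ?_⟩
      filter_upwards [eventually_gt_atTop (1 : ℝ)] with x hx
      have : 0 < Real.log x := Real.log_pos hx
      simp only [Set.mem_Ioi]
      positivity
    refine this.congr ?_
    intro x
    rw [inv_div]
  have h6 : Tendsto (fun x : ℝ => Real.log 2 / 4 * (x / (Real.log x + 1) ^ 2)) atTop atTop :=
    h5.const_mul_atTop (by have := Real.log_pos (by norm_num : (1 : ℝ) < 2); positivity)
  have h7 := h6.comp (tendsto_natCast_atTop_atTop (R := ℝ))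
  refine tendsto_atTop_mono' atTop ?_ h7
  filter_upwards [eventually_ge_atTop 2] with n hn
  have hn' : (2 : ℝ) ≤ n := by exact_mod_cast hn
  have hl : 0 < Real.log n := Real.log_pos (by linarith)
  have hl2 : 0 < Real.log 2 := Real.log_pos (by norm_num)
  have hl21 : Real.log 2 ≤ 1 := by
    have := Real.log_two_lt_d9
    linarith
  simp only [Function.comp_apply]
  rw [Real.logb, div_div, ← mul_div_assoc]
  rw [div_le_div_iff₀ (by positivity) (by positivity)]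
  have h8 : 4 * (Real.log n / Real.log 2 + 1) * (Real.log n + 1) * Real.log 2 =
      4 * (Real.log n + Real.log 2) * (Real.log n + 1) := by
    field_simp
  have h9 : 4 * (Real.log n + Real.log 2) * (Real.log n + 1) ≤ 4 * (Real.log n + 1) ^ 2 := by
    nlinarith
  calc Real.log 2 / 4 * (n : ℝ) * (4 * (Real.log n / Real.log 2 + 1) * (Real.log n + 1))
      = (n : ℝ) / 4 * (4 * (Real.log n / Real.log 2 + 1) * (Real.log n + 1) * Real.log 2) := by
        ring
    _ = (n : ℝ) / 4 * (4 * (Real.log n + Real.log 2) * (Real.log n + 1)) := by rw [h8]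
    _ ≤ (n : ℝ) / 4 * (4 * (Real.log n + 1) ^ 2) := by
        apply mul_le_mul_of_nonneg_left h9
        positivity
    _ = n * (Real.log n + 1) ^ 2 := by ring

/-- For every `C`, the ratio `n / (4 (log₂ n + 1))` eventually exceeds `C (log n + 1)`. -/
lemma exists_large (C : ℝ) : ∃ N : ℕ, ∀ n ≥ N, 2 ≤ n ∧
    C * (Real.log n + 1) ≤ (n : ℝ) / (4 * (Real.logb 2 n + 1)) := by
  have h := (tendsto_ratio.eventually_ge_atTop C).and (eventually_ge_atTop 2)
  obtain ⟨N, hN⟩ := eventually_atTop.1 h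
  refine ⟨N, fun n hn => ⟨(hN n hn).2, ?_⟩⟩
  have h1 := (hN n hn).1
  have h2 : (2 : ℝ) ≤ n := by exact_mod_cast (hN n hn).2
  have h3 : 0 < Real.log n := Real.log_pos (by linarith)
  rwa [le_div_iff₀ (by linarith)] at h1

theorem dynamic_main (C : ℝ) : ∃ N : ℕ, ∀ n ≥ N, ∃ (T₀ : Tree) (σ : List ℕ),
    T₀.IsSearchTree n ∧ (∀ x ∈ σ, 1 ≤ x ∧ x ≤ n) ∧
      C * Real.log n * opt T₀ σ + C * n < wplCost n T₀ σ := by
  obtain ⟨N, hN⟩ := exists_large |C|
  refine ⟨N, fun n hn => ?_⟩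
  obtain ⟨hn2, h⟩ := hN n hn
  obtain ⟨T₀, hT, h1⟩ := dynamic_ratio hn2
  obtain ⟨σ, hσ, h2⟩ := h1 (C * n + 1)
  refine ⟨T₀, σ, hT, hσ, ?_⟩
  have hn' : (2 : ℝ) ≤ n := by exact_mod_cast hn2
  have h3 : 0 < Real.log n := Real.log_pos (by linarith)
  have h4 : C * Real.log n ≤ (n : ℝ) / (4 * (Real.logb 2 n + 1)) := by
    refine le_trans ?_ h
    have := le_abs_self C
    have := abs_nonneg C
    nlinarith
  have h5 : C * Real.log n * opt T₀ σ ≤ (n : ℝ) / (4 * (Real.logb 2 n + 1)) * opt T₀ σ :=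
    mul_le_mul_of_nonneg_right h4 (Nat.cast_nonneg _)
  linarith

theorem static_main (c : ℝ) : ∃ N : ℕ, ∀ n ≥ N, ∃ T₀ : Tree, T₀.IsSearchTree n ∧
    ∀ a : ℝ, ∃ σ : List ℕ, (∀ x ∈ σ, 1 ≤ x ∧ x ≤ n) ∧
      c * staticOpt n σ + a < wplCost n T₀ σ := by
  obtain ⟨N, hN⟩ := exists_large |c|
  refine ⟨N, fun n hn => ?_⟩
  obtain ⟨hn2, h⟩ := hN n hn
  obtain ⟨T₀, hT, h1⟩ := static_ratio hn2
  refine ⟨T₀, hT, fun a => ?_⟩
  obtain ⟨σ, hσ, h2⟩ := h1 (a + 1)
  refine ⟨σ, hσ, ?_⟩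
  have hn' : (2 : ℝ) ≤ n := by exact_mod_cast hn2
  have h3 : 0 < Real.log n := Real.log_pos (by linarith)
  have h4 : c ≤ (n : ℝ) / (4 * (Real.logb 2 n + 1)) := by
    refine le_trans ?_ h
    have := le_abs_self c
    have := abs_nonneg c
    nlinarith
  have h5 : c * staticOpt n σ ≤ (n : ℝ) / (4 * (Real.logb 2 n + 1)) * staticOpt n σ :=
    mul_le_mul_of_nonneg_right h4 (Nat.cast_nonneg _)
  linarith

end Pool.Agent.Q218.WPL.Tree
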