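import Pool.Agent.Q218.WPL.Zigzag

set_option autoImplicit false

namespace Pool.Agent.Q218.WPL.Tree

/-! ### A balanced tree -/

/-- The balanced tree with the keys `a, …, a + l - 1`. -/
def bal (a l : ℕ) : Tree :=
  if l = 0 then nil else node (bal a (l / 2)) (a + l / 2) (bal (a + l / 2 + 1) (l - 1 - l / 2))
termination_by l
decreasing_by all_goals omega

lemma inorder_bal (l : ℕ) : ∀ a, (bal a l).inorder = List.range' a l := by
  induction l using Nat.strong_induction_on with
  | _ l ih =>
    intro a
    rw [bal]
    by_cases hl : l = 0
    · simp [hl, inorder]
    · rw [if_neg hl]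
      simp only [inorder]
      rw [ih (l / 2) (by omega), ih (l - 1 - l / 2) (by omega)]
      have : l = l / 2 + ((l - 1 - l / 2) + 1) := by omega
      conv_rhs => rw [this]
      rw [← List.range'_append_1, List.range'_succ]

lemma pathLen_bal (l : ℕ) : ∀ a x, pathLen x (bal a l) ≤ Nat.log 2 l + 1 := by
  induction l using Nat.strong_induction_on with
  | _ l ih =>
    intro a x
    rw [bal]
    by_cases hl : l = 0
    · simp [hl, pathLen]
    · rw [if_neg hl]
      simp only [pathLen]
      have hlog : 2 ≤ l → Nat.log 2 l = Nat.log 2 (l / 2) + 1 := by
        intro h
        rw [Nat.log_div_base]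
        have := Nat.log_pos (by norm_num : 1 < 2) h
        omega
      have hmono : Nat.log 2 (l - 1 - l / 2) ≤ Nat.log 2 (l / 2) :=
        Nat.log_mono_right (by omega)
      by_cases h2 : 2 ≤ l
      · have e := hlog h2
        split_ifs
        · have := ih (l / 2) (by omega) a x
          omega
        · have := ih (l - 1 - l / 2) (by omega) (a + l / 2 + 1) x
          omega
        · omega
      · have : l = 1 := by omega
        subst this
        simp [bal, pathLen]

/-! ### Rotations connect all trees -/

lemma Rotation.symm {T T' : Tree} (h : Rotation T T') : Rotation T' T := by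
  induction h with
  | right a b c x y => exact Rotation.left a b c x y
  | left a b c x y => exact Rotation.right a b c x y
  | inLeft l l' r k _ ih => exact Rotation.inLeft _ _ _ _ ih
  | inRight l r r' k _ ih => exact Rotation.inRight _ _ _ _ ih

/-- `T` can be transformed into `T'` by rotations. -/
def Conn (T T' : Tree) : Prop := Relation.ReflTransGen Rotation T T'

lemma Conn.symm {T T' : Tree} (h : Conn T T') : Conn T' T := by
  induction h with
  | refl => exact Relation.ReflTransGen.refl
  | tail _ h ih => exact Relation.ReflTransGen.head h.symm ih

lemma Conn.exists_rotations {T T' : Tree} (h : Conn T T') : ∃ k, Rotations k T T' := by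
  induction h using Relation.ReflTransGen.head_induction_on with
  | refl => exact ⟨0, Rotations.refl _⟩
  | head h _ ih =>
    obtain ⟨k, hk⟩ := ih
    exact ⟨k + 1, Rotations.step h hk⟩

lemma Conn.inRight {r r' : Tree} (l : Tree) (k : ℕ) (h : Conn r r') :
    Conn (node l k r) (node l k r') := by
  induction h with
  | refl => exact Relation.ReflTransGen.refl
  | tail _ h ih => exact ih.tail (Rotation.inRight _ _ _ _ h)

/-- The path to the right with the given keys. -/
def spine : List ℕ → Tree
  | [] => nil
  | k :: L => node nil k (spine L)

/-- Every tree can be rotated into a path. -/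
lemma conn_spine : ∀ T : Tree, Conn T (spine T.inorder) := by
  have key : ∀ (N : ℕ) (T : Tree), T.inorder.length ≤ N → Conn T (spine T.inorder) := by
    intro N
    induction N with
    | zero =>
      intro T hT
      cases T with
      | nil => exact Relation.ReflTransGen.refl
      | node l k r => simp [inorder] at hT
    | succ N ih =>
      -- second induction, on the size of the left subtree
      have h2 : ∀ (M : ℕ) (l : Tree) (k : ℕ) (r : Tree), l.inorder.length ≤ M →
          (node l k r).inorder.length ≤ N + 1 → Conn (node l k r) (spine (node l k r).inorder) := by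
        intro M
        induction M with
        | zero =>
          intro l k r hl hT
          cases l with
          | nil =>
            have hr : r.inorder.length ≤ N := by
              simp only [inorder, List.nil_append, List.length_cons] at hT
              omega
            exact (ih r hr).inRight nil k
          | node a y b => simp [inorder] at hl
        | succ M ihM =>
          intro l k r hl hT
          cases l with
          | nil =>
            have hr : r.inorder.length ≤ N := by
              simp only [inorder, List.nil_append, List.length_cons] at hT
              omega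
            exact (ih r hr).inRight nil k
          | node a y b =>
            have e : (node (node a y b) k r).inorder = (node a y (node b k r)).inorder := by
              simp [inorder]
            have h := ihM a y (node b k r)
              (by simp only [inorder, List.length_append, List.length_cons] at hl; omega)
              (by rw [← e]; exact hT)
            rw [e]
            exact Relation.ReflTransGen.head (Rotation.right a b r y k) h
      intro T hT
      cases T with
      | nil => exact Relation.ReflTransGen.refl
      | node l k r => exact h2 _ l k r le_rfl hT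
  exact fun T => key _ T le_rfl

lemma conn_of_inorder {T T' : Tree} (h : T.inorder = T'.inorder) : Conn T T' := by
  have h1 := conn_spine T
  have h2 := (conn_spine T').symm
  rw [h] at h1
  exact Relation.ReflTransGen.trans h1 h2

/-! ### The offline cost -/

lemma serves_static (S : Tree) (σ : List ℕ) : Serves S σ (staticCost S σ) := by
  induction σ with
  | nil => exact Serves.nil S
  | cons x σ ih =>
    have := Serves.cons (x := x) (Rotations.refl S) ih
    simpa [staticCost] using this

lemma staticCost_bal_le (n : ℕ) (σ : List ℕ) :
    staticCost (bal 1 n) σ ≤ σ.length * (Nat.log 2 n + 1) := by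
  induction σ with
  | nil => simp [staticCost]
  | cons x σ ih =>
    simp only [staticCost, List.map_cons, List.sum_cons, List.length_cons] at ih ⊢
    have := pathLen_bal n 1 x
    nlinarith

lemma isSearchTree_bal (n : ℕ) : IsSearchTree n (bal 1 n) := inorder_bal n 1

lemma staticOpt_le (n : ℕ) (σ : List ℕ) : staticOpt n σ ≤ σ.length * (Nat.log 2 n + 1) := by
  refine le_trans (Nat.sInf_le ⟨bal 1 n, isSearchTree_bal n, rfl⟩) (staticCost_bal_le n σ)

lemma opt_le {n : ℕ} {T₀ : Tree} (hT : IsSearchTree n T₀) :
    ∃ K : ℕ, ∀ σ : List ℕ, (∀ x ∈ σ, 1 ≤ x ∧ x ≤ n) →
      opt T₀ σ ≤ σ.length * (Nat.log 2 n + 1) + K := by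
  obtain ⟨k, hk⟩ := (conn_of_inorder (T := T₀) (T' := bal 1 n) (hT.trans
    (isSearchTree_bal n).symm)).exists_rotations
  refine ⟨(∑ x ∈ Finset.Icc 1 n, pathLen x T₀) + k, ?_⟩
  intro σ hσ
  cases σ with
  | nil =>
    refine le_trans (Nat.sInf_le (Serves.nil T₀)) (Nat.zero_le _)
  | cons x σ =>
    refine le_trans (Nat.sInf_le (Serves.cons (x := x) hk (serves_static (bal 1 n) σ))) ?_
    have h1 := staticCost_bal_le n σ
    have hx := hσ x (by simp)
    have h2 : pathLen x T₀ ≤ ∑ x ∈ Finset.Icc 1 n, pathLen x T₀ :=
      Finset.single_le_sum (f := fun x => pathLen x T₀) (fun _ _ => Nat.zero_le _)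
        (Finset.mem_Icc.2 hx)
    rw [List.length_cons]
    nlinarith

end Pool.Agent.Q218.WPL.Tree
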