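import Pool.Agent.Q218.WPL.Defs

set_option autoImplicit false

namespace Pool.Agent.Q218.WPL.Tree

/-- The zig-zag path with the keys `a, …, a + l - 1`. -/
def zz : Bool → ℕ → ℕ → Tree
  | _, _, 0 => nil
  | true, a, l + 1 => node nil a (zz false (a + 1) l)
  | false, a, l + 1 => node (zz true a l) (a + l) nil

/-- The keys of the zig-zag path from the root downwards. -/
def ord : Bool → ℕ → ℕ → List ℕ
  | _, _, 0 => []
  | true, a, l + 1 => a :: ord false (a + 1) l
  | false, a, l + 1 => (a + l) :: ord true a l

lemma inorder_zz (l : ℕ) : ∀ (b : Bool) (a : ℕ), (zz b a l).inorder = List.range' a l := by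
  induction l with
  | zero => intro b a; cases b <;> rfl
  | succ l ih =>
    intro b a
    cases b with
    | true => simp [zz, inorder, ih, List.range'_succ]
    | false => simp [zz, inorder, ih, List.range'_1_concat]

lemma isSearchTree_zz (n : ℕ) : IsSearchTree n (zz true 1 n) := inorder_zz n true 1

lemma length_ord (l : ℕ) : ∀ (b : Bool) (a : ℕ), (ord b a l).length = l := by
  induction l with
  | zero => intro b a; cases b <;> rfl
  | succ l ih =>
    intro b a
    cases b <;> simp [ord, ih]

lemma mem_ord (l : ℕ) : ∀ (b : Bool) (a x : ℕ), x ∈ ord b a l ↔ a ≤ x ∧ x < a + l := by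
  induction l with
  | zero => intro b a x; cases b <;> simp [ord]
  | succ l ih =>
    intro b a x
    cases b with
    | true => simp only [ord, List.mem_cons, ih]; omega
    | false => simp only [ord, List.mem_cons, ih]; omega

lemma nodup_ord (l : ℕ) : ∀ (b : Bool) (a : ℕ), (ord b a l).Nodup := by
  induction l with
  | zero => intro b a; cases b <;> simp [ord]
  | succ l ih =>
    intro b a
    cases b with
    | true => simp only [ord, List.nodup_cons, mem_ord, ih]; exact ⟨by omega, trivial⟩
    | false => simp only [ord, List.nodup_cons, mem_ord, ih]; exact ⟨by omega, trivial⟩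

/-- The depth of the keys of the zig-zag path. -/
lemma pathLen_zz (l : ℕ) : ∀ (b : Bool) (a x : ℕ) (s t : List ℕ), ord b a l = s ++ x :: t →
    pathLen x (zz b a l) = s.length + 1 := by
  induction l with
  | zero => intro b a x s t h; cases b <;> simp [ord] at h
  | succ l ih =>
    intro b a x s t h
    cases b with
    | true =>
      cases s with
      | nil =>
        simp only [ord, List.nil_append, List.cons.injEq] at h
        simp [zz, pathLen, h.1]
      | cons y s =>
        simp only [ord, List.cons_append, List.cons.injEq] at h
        have hx : x ∈ ord false (a + 1) l := by rw [h.2]; simp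
        rw [mem_ord] at hx
        have := ih false (a + 1) x s t h.2
        simp only [zz, pathLen, this, List.length_cons]
        rw [if_neg (by omega), if_pos (by omega)]
        omega
    | false =>
      cases s with
      | nil =>
        simp only [ord, List.nil_append, List.cons.injEq] at h
        simp [zz, pathLen, h.1]
      | cons y s =>
        simp only [ord, List.cons_append, List.cons.injEq] at h
        have hx : x ∈ ord true a l := by rw [h.2]; simp
        rw [mem_ord] at hx
        have := ih true a x s t h.2
        simp only [zz, pathLen, this, List.length_cons]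
        rw [if_pos (by omega)]
        omega

lemma rotUp_root (x : ℕ) (l : ℕ) (b : Bool) (a : ℕ) (t : List ℕ) (h : ord b a l = x :: t) :
    rotUp x (zz b a l) = zz b a l := by
  cases l with
  | zero => cases b <;> simp [ord] at h
  | succ l =>
    cases b with
    | true =>
      simp only [ord, List.cons.injEq] at h
      simp [zz, rotUp, h.1]
    | false =>
      simp only [ord, List.cons.injEq] at h
      simp [zz, rotUp, h.1]

lemma rootKey_zz (l : ℕ) (b : Bool) (a : ℕ) : (zz b a l).rootKey = (ord b a l).head? := by
  cases l with
  | zero => cases b <;> rfl
  | succ l => cases b <;> rfl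

/-- The effect of rotating the key `x` over its parent `p` on the depths. -/
lemma pathLen_rotUp (l : ℕ) : ∀ (b : Bool) (a p x : ℕ) (s t : List ℕ),
    ord b a l = s ++ p :: x :: t → ∀ v, a ≤ v → v < a + l →
    pathLen v (rotUp x (zz b a l)) + (if v = x then 1 else 0) =
      pathLen v (zz b a l) + (if v = p then 1 else 0) := by
  induction l with
  | zero => intro b a p x s t h; cases b <;> simp [ord] at h
  | succ l ih =>
    intro b a p x s t h v hv1 hv2
    cases b with
    | true =>
      cases s with
      | nil =>
        simp only [ord, List.nil_append, List.cons.injEq] at h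
        obtain ⟨rfl, h⟩ := h
        cases l with
        | zero => simp [ord] at h
        | succ l =>
          simp only [ord, List.cons.injEq] at h
          obtain ⟨rfl, h⟩ := h
          simp only [zz, rotUp, rootKey, rotateLeft, pathLen]
          rw [if_neg (by omega), if_pos (by omega)]
          simp only [if_true, pathLen]
          split_ifs <;> omega
      | cons y s =>
        simp only [ord, List.cons_append, List.cons.injEq] at h
        obtain ⟨rfl, h⟩ := h
        have hx : x ∈ ord false (a + 1) l := by rw [h]; simp
        have hp : p ∈ ord false (a + 1) l := by rw [h]; simp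
        have hnd := nodup_ord l false (a + 1)
        rw [h] at hnd
        rw [mem_ord] at hx hp
        have hroot : (zz false (a + 1) l).rootKey ≠ some x := by
          rw [rootKey_zz, h]
          cases s with
          | nil => simp at hnd ⊢; tauto
          | cons z s =>
            simp only [List.cons_append, List.head?_cons, ne_eq, Option.some.injEq]
            simp only [List.cons_append, List.nodup_cons, List.mem_append, List.mem_cons,
              not_or] at hnd
            tauto
        simp only [zz, rotUp]
        rw [if_neg (by omega), if_pos (by omega), if_neg hroot]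
        simp only [pathLen]
        by_cases hva : v = a
        · subst hva
          have e1 : ¬ v = x := by omega
          have e2 : ¬ v = p := by omega
          simp [e1, e2]
        · have h1 : ¬ v < a := by omega
          have h2 : a < v := by omega
          rw [if_neg h1, if_pos h2, if_neg h1, if_pos h2]
          have := ih false (a + 1) p x s t h v (by omega) (by omega)
          omega
    | false =>
      cases s with
      | nil =>
        simp only [ord, List.nil_append, List.cons.injEq] at h
        obtain ⟨rfl, h⟩ := h
        cases l with
        | zero => simp [ord] at h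
        | succ l =>
          simp only [ord, List.cons.injEq] at h
          obtain ⟨rfl, h⟩ := h
          simp only [zz, rotUp, rootKey, rotateRight, pathLen]
          rw [if_pos (by omega)]
          simp only [if_true, pathLen]
          split_ifs <;> omega
      | cons y s =>
        simp only [ord, List.cons_append, List.cons.injEq] at h
        obtain ⟨rfl, h⟩ := h
        have hx : x ∈ ord true a l := by rw [h]; simp
        have hp : p ∈ ord true a l := by rw [h]; simp
        have hnd := nodup_ord l true a
        rw [h] at hnd
        rw [mem_ord] at hx hp
        have hroot : (zz true a l).rootKey ≠ some x := by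
          rw [rootKey_zz, h]
          cases s with
          | nil => simp at hnd ⊢; tauto
          | cons z s =>
            simp only [List.cons_append, List.head?_cons, ne_eq, Option.some.injEq]
            simp only [List.cons_append, List.nodup_cons, List.mem_append, List.mem_cons,
              not_or] at hnd
            tauto
        simp only [zz, rotUp]
        rw [if_pos (by omega), if_neg hroot]
        simp only [pathLen]
        by_cases hva : v = a + l
        · subst hva
          have e1 : ¬ a + l = x := by omega
          have e2 : ¬ a + l = p := by omega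
          simp [e1, e2]
        · have h1 : v < a + l := by omega
          rw [if_pos h1, if_pos h1]
          have := ih true a p x s t h v (by omega) (by omega)
          omega

/-- If the parent `p` of `x` is at least as heavy as `x`, rotating `x` upwards does not decrease the
weighted path length of the zig-zag path. -/
lemma wpl_rotUp (n : ℕ) (w : ℕ → ℕ) (p x : ℕ) (s t : List ℕ)
    (h : ord true 1 n = s ++ p :: x :: t) (hw : w x ≤ w p) :
    wpl n w (zz true 1 n) ≤ wpl n w (rotUp x (zz true 1 n)) := by
  have hx : x ∈ ord true 1 n := by rw [h]; simp
  have hp : p ∈ ord true 1 n := by rw [h]; simp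
  rw [mem_ord] at hx hp
  have key : wpl n w (rotUp x (zz true 1 n)) + w x = wpl n w (zz true 1 n) + w p := by
    have hxm : x ∈ Finset.Icc 1 n := by rw [Finset.mem_Icc]; omega
    have hpm : p ∈ Finset.Icc 1 n := by rw [Finset.mem_Icc]; omega
    have e1 : w x = ∑ v ∈ Finset.Icc 1 n, w v * (if v = x then 1 else 0) := by
      simp only [mul_ite, mul_one, mul_zero]
      rw [Finset.sum_ite_eq' _ x, if_pos hxm]
    have e2 : w p = ∑ v ∈ Finset.Icc 1 n, w v * (if v = p then 1 else 0) := by
      simp only [mul_ite, mul_one, mul_zero]
      rw [Finset.sum_ite_eq' _ p, if_pos hpm]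
    rw [e1, e2]
    unfold wpl
    rw [← Finset.sum_add_distrib, ← Finset.sum_add_distrib]
    apply Finset.sum_congr rfl
    intro v hv
    rw [Finset.mem_Icc] at hv
    rw [← mul_add, ← mul_add, pathLen_rotUp n true 1 p x s t h v (by omega) (by omega)]
  omega

lemma climb_of_le {n : ℕ} {w : ℕ → ℕ} {x : ℕ} {T : Tree}
    (h : wpl n w T ≤ wpl n w (rotUp x T)) : climb n w x T = (T, 0) := by
  rw [climb, if_neg (not_lt.2 h)]

/-- One pass over the rest `t` of the path. -/
lemma cost_suffix (n c : ℕ) (rest : List ℕ) (t : List ℕ) : ∀ (s : List ℕ) (w : ℕ → ℕ),
    ord true 1 n = s ++ t → (∀ v ∈ s, w v = c + 1) → (∀ v ∈ t, w v = c) →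
    ∃ w' : ℕ → ℕ, (∀ v ∈ ord true 1 n, w' v = c + 1) ∧
      wplCostFrom n w (zz true 1 n) (t ++ rest) =
        (∑ j ∈ Finset.range t.length, (s.length + 1 + j)) +
          wplCostFrom n w' (zz true 1 n) rest := by
  induction t with
  | nil =>
    intro s w h h1 h2
    refine ⟨w, ?_, by simp⟩
    intro v hv
    rw [h, List.append_nil] at hv
    exact h1 v hv
  | cons x t ih =>
    intro s w h h1 h2
    have hnd := nodup_ord n true 1
    rw [h] at hnd
    have hxs : x ∉ s := by
      intro hx
      have := List.disjoint_of_nodup_append hnd hx
      exact this (by simp)
    have hxt : x ∉ t := by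
      have := hnd.of_append_right
      rw [List.nodup_cons] at this
      exact this.1
    have hstuck : wpl n (Function.update w x (w x + 1)) (zz true 1 n) ≤
        wpl n (Function.update w x (w x + 1)) (rotUp x (zz true 1 n)) := by
      rcases List.eq_nil_or_concat' s with rfl | ⟨s', p, rfl⟩
      · rw [rotUp_root x n true 1 t (by simpa using h)]
      · have hp : p ∈ s' ++ [p] := by simp
        have hpx : p ≠ x := by
          rintro rfl
          exact hxs hp
        refine wpl_rotUp n _ p x s' t (by simpa using h) ?_
        rw [Function.update_self, Function.update_of_ne hpx, h1 p hp, h2 x (by simp)]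
    obtain ⟨w', hw', hc⟩ := ih (s ++ [x]) (Function.update w x (w x + 1))
      (by simpa using h)
      (by
        intro v hv
        rw [List.mem_append, List.mem_singleton] at hv
        by_cases hvx : v = x
        · subst hvx
          rw [Function.update_self, h2 v (by simp)]
        · rw [Function.update_of_ne hvx]
          exact h1 v (hv.resolve_right hvx))
      (by
        intro v hv
        have hvx : v ≠ x := by
          rintro rfl
          exact hxt hv
        rw [Function.update_of_ne hvx]
        exact h2 v (by simp [hv]))
    refine ⟨w', hw', ?_⟩
    simp only [List.cons_append, wplCostFrom]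
    rw [climb_of_le hstuck]
    simp only
    rw [hc, pathLen_zz n true 1 x s t h, List.length_cons, Finset.sum_range_succ']
    simp only [List.length_append, List.length_singleton, add_zero]
    have : ∀ k ∈ Finset.range t.length, s.length + 1 + 1 + k = s.length + 1 + (k + 1) := by
      intro k _
      omega
    rw [Finset.sum_congr rfl this]
    omega

/-- The requests: `m` passes along the path from the root downwards. -/
def reqs (n m : ℕ) : List ℕ := (List.replicate m (ord true 1 n)).flatten

lemma cost_rounds (n : ℕ) (m : ℕ) : ∀ (c : ℕ) (w : ℕ → ℕ), (∀ v ∈ ord true 1 n, w v = c) →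
    wplCostFrom n w (zz true 1 n) (reqs n m) = m * ∑ j ∈ Finset.range n, (1 + j) := by
  induction m with
  | zero => intro c w _; simp [reqs, wplCostFrom]
  | succ m ih =>
    intro c w hw
    obtain ⟨w', hw', h⟩ := cost_suffix n c (reqs n m) (ord true 1 n) [] w (by simp) (by simp) hw
    have e : reqs n (m + 1) = ord true 1 n ++ reqs n m := by
      simp [reqs, List.replicate_succ]
    rw [e, h, ih (c + 1) w' hw', length_ord]
    simp only [List.length_nil, zero_add]
    ring

lemma wplCost_reqs (n m : ℕ) :
    2 * wplCost n (zz true 1 n) (reqs n m) = m * (n * (n + 1)) := by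
  unfold wplCost
  rw [cost_rounds n m 0 (fun _ => 0) (fun _ _ => rfl)]
  have : 2 * ∑ j ∈ Finset.range n, (1 + j) = n * (n + 1) := by
    induction n with
    | zero => simp
    | succ n ih => rw [Finset.sum_range_succ, mul_add, ih]; ring
  calc 2 * (m * ∑ j ∈ Finset.range n, (1 + j)) = m * (2 * ∑ j ∈ Finset.range n, (1 + j)) := by ring
    _ = _ := by rw [this]

lemma length_reqs (n m : ℕ) : (reqs n m).length = m * n := by
  simp [reqs, length_ord]

lemma mem_reqs {n m x : ℕ} (h : x ∈ reqs n m) : 1 ≤ x ∧ x ≤ n := by
  simp only [reqs, List.mem_flatten, List.mem_replicate] at h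
  obtain ⟨L, ⟨_, rfl⟩, hx⟩ := h
  rw [mem_ord] at hx
  omega

end Pool.Agent.Q218.WPL.Tree
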